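import Pool.Agent.H99.TT.Main3

/-!
# MP_644d19_co, Q1: degree two, and the structure of a smallest synchronizing factor
-/

set_option autoImplicit false

namespace Pool.Agent.Results.MP_644d19_co.BunchStructure

open Pool.Agent.H75.Bunchy Pool.Agent.H26.Bunchy Pool.Agent.H99.TT

/-- Let `G` be strongly connected with a right resolver `Φ` onto a graph `B` (for instance the
minimal graph `M(G)`, or a bunchy factor). Then `G` has a synchronizing factor `H` over `B` with the
following properties.

(0) If `B` is bunchy, then `H` is bunchy in each of these cases: the vertex map `H → B` is injective;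
for each `r ≥ 3`, every right resolver `G → B` with the vertex map of `Φ` has a degree less than `r`,
or the vertices of `G` over some vertex of `B` cannot be divided into `r` parts each of which has the
share `1 / r` for all fair weights (so it suffices that all these degrees are at most `2`, or that
the weights are uniform and the numbers of vertices over the vertices of `B` have the greatest common
divisor `1` or `2`); for some fair weights on `G` and every real number `s` with `0 < s ≤ 2 / 3` and
`t = 1 / 3 - s / 4`, some set `C` of vertices which is collapsible (see (2); for instance one vertex)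
has a share of more than `t`, or the sum of the shares of all vertices `x`, each counted once for
every `J` over which the followers of `x` together have a share of more than `t`, is more than `s`
(so it suffices that a collapsible set has a share of at least a third, or that the sum of the shares
of all `x`, each counted once for every `J` over which the followers of `x` together have a share of
at least a third, is more than `2 / 3`).

Let `Λ` be a right resolver from `H` onto any graph `N` over `B` (over `B`: with a right resolver
`N → B` for which the composition has the given vertex map `H → B`; nothing is asked if `B` is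
minimal).

(1) Double bunches. Let `γ` be a nonempty list of vertices of `N` with the last member `I`, such
that no vertex of `H` over a member of `γ` has two followers over the next member (nothing is asked
of the step from `I` to the first member). Let `E` be the set of the vertices at which paths over
arbitrarily many repetitions of `γ` end that start over `I`. Then from every vertex of `E` the paths
over `γ` have exactly one end, or two different vertices of `E` have the same single end.

(2) If the vertex map of `Λ` is not injective, let `ρ` be the least degree of the right resolvers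
`H → N` with this vertex map. Then `ρ ≥ 2`, and if `ρ = 2`, then `H` is a double cover of a graph
which has a synchronizing right resolver onto `N`. For all fair weights over `N` let `S` be the sum of
the shares of all vertices of `H` (in the weight of their fibres), each counted once for every vertex
of `N` over which it has at least two followers. Let `C` be collapsible: a nonempty set of vertices
in one fibre such that every right resolver `H → N` with this vertex map has a path (which may depend
on the right resolver) that leads `C` to one vertex. Then `S ≤ 2 / 3`, twice the share of `C` plus `S`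
is at most `2 / ρ`, and, if some vertex has two followers over one vertex of `N`, four times the share
of `C` plus `S` is at most `4 / 3` and twice the share of `C` plus `S` is at most `2 / 3` plus the
share of `D`, for a set `D`, independent of `C`, of one or two vertices in one fibre, all with at
least two followers over one vertex of `N`. -/
theorem result (G B : Graph) (hG : G.StronglyConnected) (Φ : RightResolver G B) :
    ∃ (H : Graph) (Θ : RightResolver H B) (Ψ : RightResolver G H), Ψ.Synchronizing ∧
      (∀ p, Θ.v (Ψ.v p) = Φ.v p) ∧
      (IsBunchy B → (Function.Injective Θ.v ∨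
        (∀ r : ℕ, 3 ≤ r → DegreeLe (H := B) Φ.v (r - 1) ∨ ∃ J, ¬ EqualParts (H := B) Φ.v J r) ∨
        ∃ (pr : B.V → B.V → ℝ) (μ : G.V → ℝ), FairWeights Φ.v pr μ ∧
          ∀ s : ℝ, 0 < s → 3 * s ≤ 2 →
            (∃ C : Set G.V, C.Nonempty ∧ Collapsible (H := B) Φ.v C ∧
              4 < 12 * ∑ᶠ z ∈ C, share Φ.v μ z + 3 * s) ∨
            s < ∑ᶠ x, ({J | 4 < 12 * ∑ᶠ z ∈ FollowersOver Φ.v x J, share Φ.v μ z +
              3 * s}.ncard : ℝ) * share Φ.v μ x) → IsBunchy H) ∧
      ∀ (N : Graph) (Λ : RightResolver H N),
        (Minimal B ∨ ∃ Γ : RightResolver N B, ∀ x, Γ.v (Λ.v x) = Θ.v x) →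
        (∀ (γ : List N.V) (hγ : γ ≠ []), NarrowList Λ.v γ →
          (∀ x ∈ Core Λ.v (γ.getLast hγ) γ, (Ends Λ.v γ x).ncard = 1) ∨
          ∃ x ∈ Core Λ.v (γ.getLast hγ) γ, ∃ y ∈ Core Λ.v (γ.getLast hγ) γ, x ≠ y ∧
            ∃ r, Ends Λ.v γ x = {r} ∧ Ends Λ.v γ y = {r}) ∧
        (¬ Function.Injective Λ.v →
          ∃ ρ : ℕ, 2 ≤ ρ ∧ LeastDegree (H := N) Λ.v ρ ∧ (ρ = 2 → DoubleCover (H := N) Λ.v) ∧
            ∀ (pr : N.V → N.V → ℝ) (μ : H.V → ℝ), FairWeights Λ.v pr μ →
              3 * ∑ᶠ x, (splits Λ.v x : ℝ) * share Λ.v μ x ≤ 2 ∧
              (∀ C : Set H.V, C.Nonempty → Collapsible (H := N) Λ.v C →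
                (ρ : ℝ) * (2 * ∑ᶠ z ∈ C, share Λ.v μ z +
                  ∑ᶠ x, (splits Λ.v x : ℝ) * share Λ.v μ x) ≤ 2) ∧
              ((∃ x, splits Λ.v x ≠ 0) → ∃ D : Set H.V, D.Nonempty ∧ D.ncard ≤ 2 ∧
                Splitting (H := N) Λ.v D ∧
                ∀ C : Set H.V, C.Nonempty → Collapsible (H := N) Λ.v C →
                  12 * ∑ᶠ z ∈ C, share Λ.v μ z +
                    3 * ∑ᶠ x, (splits Λ.v x : ℝ) * share Λ.v μ x ≤ 4 ∧
                  3 * (2 * ∑ᶠ z ∈ C, share Λ.v μ z +
                    ∑ᶠ x, (splits Λ.v x : ℝ) * share Λ.v μ x) ≤
                      2 + 3 * ∑ᶠ x ∈ D, share Λ.v μ x)) :=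
  Pool.Agent.H99.TT.main_bunch G B hG Φ

end Pool.Agent.Results.MP_644d19_co.BunchStructure
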