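import Pool.Agent.H33.Exc.Final

/-!
# MP_644d19_co, Q1: bunchy synchronizing factors from unsplittable combinations of letters
-/

set_option autoImplicit false

namespace Pool.Agent.Results.MP_644d19_co.LetterCombinations

open Pool.Agent.H75.Bunchy Pool.Agent.H33.Exc

/-- Let `G` be strongly connected with a right resolver `Φ` onto a bunchy graph `B` (for example
onto `B = M(G)` or onto `B = B(G)`). If every pair `(I, J)` of vertices of `B` with at least two
edges from `I` to `J` is a `CombPair` (a local condition on the full vertices, or an unsplittable
excess for some combination of the letters from `I` to `J`, or one letter which is an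
`Unobstructed` selection of followers), then `G` has a bunchy synchronizing factor. -/
theorem result (G B : Graph) (hG : G.StronglyConnected) (hB : IsBunchy B)
    (Φ : RightResolver G B) (h : ∀ I J, 2 ≤ B.mult I J → CombPair Φ I J) :
    ∃ H : Graph, IsBunchy H ∧ ∃ Ψ : RightResolver G H, Ψ.Synchronizing :=
  main_comb G B hG hB Φ h

end Pool.Agent.Results.MP_644d19_co.LetterCombinations
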