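import Pool.Agent.H97.Dst.SpecG

/-!
# Bunchy synchronizing factors of multiplicity-free graphs
-/

set_option autoImplicit false

namespace Pool.Agent.Results.MP_644d19_co.MultiplicityFree

open Pool.Agent.H75.Bunchy Pool.Agent.H26.Bunchy Pool.Agent.H97.Dst

/-- A strongly connected graph `G` with a right resolver onto a bunchy graph has a bunchy
synchronizing factor in each of the following cases.

1. For some real weights `c I J` the matrix with the entries `c (Φ.v q) (Φ.v t) * #(edges q → t)`
   has no complex eigenvalue of geometric multiplicity `≥ 2` (with all weights `1` this is the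
   adjacency matrix of `G`).
2. An operator in the algebra generated by the adjacency operator of `G` and the indicator
   functions of the fibres is cyclic over one fibre.
3. The subspaces that are invariant under these operators satisfy the distributive law over an
   attractor in one fibre. -/
theorem result (G B : Graph) (hG : G.StronglyConnected) (hB : IsBunchy B)
    (Φ : RightResolver G B)
    (h : (∃ c : B.V → B.V → ℝ, NoMultiple (wMat Φ.v c)) ∨ (∃ K : B.V, CyclicOver Φ.v K) ∨
      ∃ X : Set G.V, DistEnds Φ.v X) :
    ∃ H : Graph, IsBunchy H ∧ ∃ Ψ : RightResolver G H, Ψ.Synchronizing := by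
  rcases h with ⟨c, h⟩ | ⟨K, h⟩ | ⟨X, h⟩
  · rcases isEmpty_or_nonempty G.V with h0 | ⟨⟨x⟩⟩
    · refine ⟨B, hB, Φ, fun J => ?_⟩
      obtain ⟨x, -⟩ := Φ.v_surj J
      exact (h0.false x).elim
    · exact main11 G B hG hB Φ _ (distEnds_of_noMultiple Φ.v c h x)
  · obtain ⟨x, rfl⟩ := Φ.v_surj K
    exact main11 G B hG hB Φ _ (distEnds_of_cyclicOver Φ.v x h)
  · exact main11 G B hG hB Φ X h

end Pool.Agent.Results.MP_644d19_co.MultiplicityFree
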