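import Pool.Agent.H33.TP.Main

/-!
# MP_644d19_co, Q1: bunchy synchronizing factors when three pairs of followers suffice
-/

set_option autoImplicit false

namespace Pool.Agent.Results.MP_644d19_co.ThreePairs

open Pool.Agent.H75.Bunchy Pool.Agent.H97.Bun Pool.Agent.H33.TP

/-- Let `G` be strongly connected with a right resolver `Φ` onto a bunchy graph `B` (for example
onto `B = M(G)` or onto `B = B(G)`). Suppose that for all vertices `I`, `J` of `B` with at least
two edges from `I` to `J` one of the following holds:
* the pair `(I, J)` is good (`Good3`): both members of one of three pairs of vertices are followers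
  of each full vertex over `I`, and similar conditions;
* some walk `K, J₁, …, Jₙ` of `B` has between one and eight end vertices in `G`: vertices `t` that
  are reached from some vertex over `K` by a path of `G` over this walk (for `n = 0`: some vertex
  of `B` has at most eight preimages);
* there are a walk `K, J₁, …, Jₙ` of `B` in which no consecutive pair joined by at least two edges
  occurs twice and a set `Z` of at most eight vertices of `G`, such that every vertex over `K` leads
  into `Z` along this walk (`Lead`; with two edges at the pair `(I, J)`, if it occurs).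
Then `G` has a bunchy synchronizing factor. -/
theorem result (G B : Graph) (hG : G.StronglyConnected) (hB : IsBunchy B) (Φ : RightResolver G B)
    (hgood : ∀ I J : B.V, 2 ≤ B.mult I J →
      Good3 Φ.v I J ∨
      (∃ (K : B.V) (β : List B.V), (WalkEnds Φ.v K β).Nonempty ∧ (WalkEnds Φ.v K β).ncard ≤ 8) ∨
      (∃ (K : B.V) (β : List B.V) (Z : Set G.V),
        ((K :: β).zip β).Pairwise (fun a b => a = b → B.mult a.1 a.2 ≤ 1) ∧
          Z.ncard ≤ 8 ∧ ∀ q, Φ.v q = K → Lead Φ.v I J Z q β)) :
    ∃ H : Graph, IsBunchy H ∧ ∃ Ψ : RightResolver G H, Ψ.Synchronizing :=
  main38 G B hG hB Φ hgood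

end Pool.Agent.Results.MP_644d19_co.ThreePairs
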